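import Mathlib

/-!
# MP_2332b0_al : failing Lefschetz maps without complete-intersection dual generators

We disprove Q1 with `n = 4`, `I = (x₀x₁, x₂x₃)`, `a = (3, 5, 3, 5)`, `t = 4`, over every field of
characteristic zero.  Here `dim R/I = 2`, so a system of parameters of `I` consists of two
homogeneous polynomials `θ₁, θ₂` (of positive degree).  For a linear form `L = ∑ lᵢ xᵢ` with all
`lᵢ ≠ 0` (in particular for a general one) every `F ∈ 𝒦` is killed by the three independent linear
forms `x₀`, `x₂`, `l₁ x₁ + l₃ x₃`, whereas `I + (θ₁, θ₂)` contains at most two.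
-/

set_option autoImplicit false

open MvPolynomial

namespace Pool.Agent.Results.MP_2332b0_al.NoSopDualGenerator

variable {K : Type} [Field K]

/-- The differential operator `∏ (∂/∂yᵢ)^{mᵢ}` attached to the monomial `x^m`. -/
noncomputable def dmon {n : ℕ} (m : Fin n →₀ ℕ) (F : MvPolynomial (Fin n) K) :
    MvPolynomial (Fin n) K :=
  (List.finRange n).foldr (fun i G => (fun H => pderiv i H)^[m i] G) F

/-- The action `g ∘ F` of polynomials on polynomials by differentiation: `xᵢ` acts as `∂/∂yᵢ`. -/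
noncomputable def act {n : ℕ} (g F : MvPolynomial (Fin n) K) : MvPolynomial (Fin n) K :=
  ∑ m ∈ g.support, coeff m g • dmon m F

/-- The linear form `∑ lᵢ xᵢ`. -/
noncomputable def linForm {n : ℕ} (l : Fin n → K) : MvPolynomial (Fin n) K :=
  ∑ i, C (l i) * X i

/-- The ideal `J = I + (x₁^{a₁}, …, xₙ^{aₙ})`. -/
noncomputable def idealJ {n : ℕ} (I : Ideal (MvPolynomial (Fin n) K)) (a : Fin n → ℕ) :
    Ideal (MvPolynomial (Fin n) K) :=
  I ⊔ Ideal.span (Set.range fun i => X i ^ a i)

/-- `×L : A_{t-1} → A_t` is injective, where `A = R/J`. -/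
def MulInjective {n : ℕ} (J : Ideal (MvPolynomial (Fin n) K)) (L : MvPolynomial (Fin n) K)
    (t : ℕ) : Prop :=
  ∀ g : MvPolynomial (Fin n) K, g.IsHomogeneous (t - 1) → L * g ∈ J → g ∈ J

/-- `×L : A_{t-1} → A_t` is surjective, where `A = R/J`. -/
def MulSurjective {n : ℕ} (J : Ideal (MvPolynomial (Fin n) K)) (L : MvPolynomial (Fin n) K)
    (t : ℕ) : Prop :=
  ∀ h : MvPolynomial (Fin n) K, h.IsHomogeneous t →
    ∃ g : MvPolynomial (Fin n) K, g.IsHomogeneous (t - 1) ∧ h - L * g ∈ J

/-- The kernel `𝒦 = {F ∈ S_t : J ∘ F = 0, L ∘ F = 0}`. -/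
def kerK {n : ℕ} (J : Ideal (MvPolynomial (Fin n) K)) (L : MvPolynomial (Fin n) K) (t : ℕ) :
    Set (MvPolynomial (Fin n) K) :=
  {F | F.IsHomogeneous t ∧ (∀ g ∈ J, act g F = 0) ∧ act L F = 0}

/-! ### The action on generators -/

theorem act_eq {n : ℕ} {g : MvPolynomial (Fin n) K} {s : Finset (Fin n →₀ ℕ)}
    (h : g.support ⊆ s) (F : MvPolynomial (Fin n) K) :
    act g F = ∑ m ∈ s, coeff m g • dmon m F := by
  unfold act
  apply Finset.sum_subset h
  intro m _ hm
  rw [notMem_support_iff.mp hm, zero_smul]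

theorem act_add {n : ℕ} (g h F : MvPolynomial (Fin n) K) : act (g + h) F = act g F + act h F := by
  classical
  rw [act_eq (support_add : (g + h).support ⊆ g.support ∪ h.support) F,
    act_eq (Finset.subset_union_left : g.support ⊆ g.support ∪ h.support) F,
    act_eq (Finset.subset_union_right : h.support ⊆ g.support ∪ h.support) F,
    ← Finset.sum_add_distrib]
  apply Finset.sum_congr rfl
  intro m _
  rw [coeff_add, add_smul]

theorem act_monomial {n : ℕ} (m : Fin n →₀ ℕ) (c : K) (F : MvPolynomial (Fin n) K) :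
    act (monomial m c) F = c • dmon m F := by
  classical
  rw [act_eq (support_monomial_subset : (monomial m c).support ⊆ {m}) F, Finset.sum_singleton,
    coeff_monomial, if_pos rfl]

theorem dmon_four (m : Fin 4 →₀ ℕ) (F : MvPolynomial (Fin 4) K) :
    dmon m F = (fun H => pderiv 0 H)^[m 0] ((fun H => pderiv 1 H)^[m 1]
      ((fun H => pderiv 2 H)^[m 2] ((fun H => pderiv 3 H)^[m 3] F))) := by
  have h : List.finRange 4 = [0, 1, 2, 3] := by decide
  rw [dmon, h]
  rfl

theorem act_CX (c : K) (i : Fin 4) (F : MvPolynomial (Fin 4) K) :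
    act (C c * X i) F = c • pderiv i F := by
  have h : (C c * X i : MvPolynomial (Fin 4) K) = monomial (Finsupp.single i 1) c := by
    rw [X, C_mul_monomial, mul_one]
  rw [h, act_monomial, dmon_four]
  fin_cases i <;> simp

theorem act_X (i : Fin 4) (F : MvPolynomial (Fin 4) K) : act (X i) F = pderiv i F := by
  have := act_CX (1 : K) i F
  rwa [C_1, one_mul, one_smul] at this

theorem act_XX (i j : Fin 4) (hij : i < j) (F : MvPolynomial (Fin 4) K) :
    act (X i * X j) F = pderiv i (pderiv j F) := by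
  have h : (X i * X j : MvPolynomial (Fin 4) K) =
      monomial (Finsupp.single i 1 + Finsupp.single j 1) 1 := by
    rw [X, X, monomial_mul, one_mul]
  rw [h, act_monomial, dmon_four, one_smul]
  fin_cases i <;> fin_cases j <;> simp at hij ⊢

theorem act_cube (i : Fin 4) (F : MvPolynomial (Fin 4) K) :
    act (X i ^ 3) F = pderiv i (pderiv i (pderiv i F)) := by
  rw [X_pow_eq_monomial, act_monomial, dmon_four, one_smul]
  fin_cases i <;> simp [Function.iterate_succ]

/-! ### The counterexample -/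

/-- The ideal `(x₀x₁, x₂x₃)`. -/
noncomputable def idealI (K : Type) [Field K] : Ideal (MvPolynomial (Fin 4) K) :=
  Ideal.span {X 0 * X 1, X 2 * X 3}

/-- The exponents `(3, 5, 3, 5)`. -/
def expo : Fin 4 → ℕ := ![3, 5, 3, 5]

/-- A generator-wise description of membership in `J`. -/
theorem J_induction {p : MvPolynomial (Fin 4) K → Prop}
    (hadd : ∀ f g, p f → p g → p (f + g)) (h0 : p 0)
    (h01 : ∀ m c, p (monomial m c * (X 0 * X 1)))
    (h23 : ∀ m c, p (monomial m c * (X 2 * X 3)))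
    (hpow : ∀ m c i, p (monomial m c * X i ^ expo i)) :
    ∀ f ∈ idealJ (idealI K) expo, p f := by
  have hgen : ∀ g : MvPolynomial (Fin 4) K, (∀ m c, p (monomial m c * g)) →
      ∀ q : MvPolynomial (Fin 4) K, p (q * g) := by
    intro g hg q
    induction q using MvPolynomial.induction_on' with
    | monomial m c => exact hg m c
    | add a b ha hb =>
      rw [add_mul]
      exact hadd _ _ ha hb
  intro f hf
  rw [idealJ, idealI, ← Ideal.span_union] at hf
  refine Submodule.span_induction (p := fun f _ => ∀ q, p (q * f)) ?_ ?_ ?_ ?_ hf 1 |> fun h => by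
    rwa [one_mul] at h
  · rintro g ((rfl | hg) | ⟨i, rfl⟩)
    · exact hgen _ h01
    · rw [Set.mem_singleton_iff] at hg
      subst hg
      exact hgen _ h23
    · exact hgen _ fun m c => hpow m c i
  · intro q
    rw [mul_zero]
    exact h0
  · intro a b _ _ ha hb q
    rw [mul_add]
    exact hadd _ _ (ha q) (hb q)
  · intro r a _ ha q
    rw [smul_eq_mul, ← mul_assoc]
    exact ha (q * r)

theorem mono_XX (m : Fin 4 →₀ ℕ) (c : K) (i j : Fin 4) :
    monomial m c * (X i * X j : MvPolynomial (Fin 4) K) =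
      monomial (m + (Finsupp.single i 1 + Finsupp.single j 1)) c := by
  rw [X, X, monomial_mul, monomial_mul, one_mul, mul_one]

theorem mono_pow (m : Fin 4 →₀ ℕ) (c : K) (i : Fin 4) (a : ℕ) :
    monomial m c * (X i ^ a : MvPolynomial (Fin 4) K) =
      monomial (m + Finsupp.single i a) c := by
  rw [X_pow_eq_monomial, monomial_mul, mul_one]

theorem eval_comp_zero (p : Fin 4 → K) (m : Fin 4 →₀ ℕ) (c : K)
    (h : (∃ i, p i = 0 ∧ m i ≠ 0) ∨ m.degree ≠ 4) :
    eval p (homogeneousComponent 4 (monomial m c)) = 0 := by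
  rw [homogeneousComponent_of_mem (isHomogeneous_monomial c rfl)]
  rcases h with ⟨i, h1, h2⟩ | h
  · split_ifs
    · rw [eval_monomial, Finsupp.prod_fintype _ _ (by simp)]
      rw [Finset.prod_eq_zero (Finset.mem_univ i), mul_zero]
      rw [h1, zero_pow h2]
    · simp
  · rw [if_neg (fun h' => h h'.symm)]
    simp

theorem degree_four (m : Fin 4 →₀ ℕ) : m.degree = m 0 + m 1 + m 2 + m 3 := by
  rw [Finsupp.degree_eq_sum, Fin.sum_univ_four]

/-- `×L : A₃ → A₄` is not surjective. -/
theorem not_surjective {l : Fin 4 → K} (hl : ∀ i, l i ≠ 0) :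
    ¬ MulSurjective (idealJ (idealI K) expo) (linForm l) 4 := by
  intro hs
  obtain ⟨g, hg, hgJ⟩ := hs (X 1 ^ 4) (isHomogeneous_X_pow 1 4)
  set p : Fin 4 → K := ![0, l 3, 0, -l 1] with hp
  have p0 : p 0 = 0 := rfl
  have p1 : p 1 = l 3 := rfl
  have p2 : p 2 = 0 := rfl
  have p3 : p 3 = -l 1 := rfl
  have hJ : ∀ f ∈ idealJ (idealI K) expo, eval p (homogeneousComponent 4 f) = 0 := by
    apply J_induction
    · intro f g hf hg
      rw [map_add, map_add, hf, hg, add_zero]
    · simp
    · intro m c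
      rw [mono_XX]
      exact eval_comp_zero p _ c (Or.inl ⟨0, p0, by simp⟩)
    · intro m c
      rw [mono_XX]
      exact eval_comp_zero p _ c (Or.inl ⟨2, p2, by simp⟩)
    · intro m c i
      rw [mono_pow]
      apply eval_comp_zero p _ c
      fin_cases i
      · exact Or.inl ⟨0, p0, by simp [expo]⟩
      · refine Or.inr ?_
        rw [degree_four]
        simp [expo]
        omega
      · exact Or.inl ⟨2, p2, by simp [expo]⟩
      · refine Or.inr ?_
        rw [degree_four]
        simp [expo]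
        omega
  have hL : (linForm l).IsHomogeneous 1 := by
    unfold linForm
    apply IsHomogeneous.sum
    intro i _
    have := (isHomogeneous_C (Fin 4) (l i)).mul (isHomogeneous_X K i)
    rwa [zero_add] at this
  have hhom : (X 1 ^ 4 - linForm l * g : MvPolynomial (Fin 4) K).IsHomogeneous 4 := by
    apply IsHomogeneous.sub (isHomogeneous_X_pow 1 4)
    exact hL.mul hg
  have h1 := hJ _ hgJ
  rw [homogeneousComponent_of_mem (m := 4) (n := 4) hhom, if_pos rfl] at h1
  have hLp : eval p (linForm l) = 0 := by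
    unfold linForm
    rw [Fin.sum_univ_four]
    simp only [map_add, map_mul, eval_C, eval_X, p0, p1, p2, p3]
    ring
  rw [map_sub, map_mul, hLp, zero_mul, sub_zero, map_pow, eval_X, p1] at h1
  exact hl 3 (pow_eq_zero_iff (by norm_num) |>.mp h1)

/-- `×L : A₃ → A₄` is not injective. -/
theorem not_injective {l : Fin 4 → K} (hl : ∀ i, l i ≠ 0) :
    ¬ MulInjective (idealJ (idealI K) expo) (linForm l) 4 := by
  intro hi
  set g : MvPolynomial (Fin 4) K :=
    monomial (Finsupp.single 0 2 + Finsupp.single 2 1) (l 0 ^ 2 * l 2) +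
    monomial (Finsupp.single 0 1 + Finsupp.single 2 2) (-(l 0 * l 2 ^ 2)) with hg
  have hg' : g = C (l 0 ^ 2 * l 2) * (X 0 ^ 2 * X 2) - C (l 0 * l 2 ^ 2) * (X 0 * X 2 ^ 2) := by
    have h1 : (monomial (Finsupp.single 0 2 + Finsupp.single 2 1) (l 0 ^ 2 * l 2) :
        MvPolynomial (Fin 4) K) = C (l 0 ^ 2 * l 2) * (X 0 ^ 2 * X 2) := by
      rw [X_pow_eq_monomial, X, monomial_mul, C_mul_monomial, mul_one, mul_one]
    have h2 : (monomial (Finsupp.single 0 1 + Finsupp.single 2 2) (-(l 0 * l 2 ^ 2)) :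
        MvPolynomial (Fin 4) K) = -(C (l 0 * l 2 ^ 2) * (X 0 * X 2 ^ 2)) := by
      rw [X_pow_eq_monomial, X, monomial_mul, C_mul_monomial, mul_one, mul_one, map_neg]
    rw [hg, h1, h2]
    ring
  have hghom : g.IsHomogeneous (4 - 1) := by
    apply IsHomogeneous.add
    · apply isHomogeneous_monomial
      rw [degree_four]
      simp
    · apply isHomogeneous_monomial
      rw [degree_four]
      simp
  have hI1 : (X 0 * X 1 : MvPolynomial (Fin 4) K) ∈ idealJ (idealI K) expo :=
    Ideal.mem_sup_left (Ideal.subset_span (by simp))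
  have hI2 : (X 2 * X 3 : MvPolynomial (Fin 4) K) ∈ idealJ (idealI K) expo :=
    Ideal.mem_sup_left (Ideal.subset_span (by simp))
  have hP0 : (X 0 ^ 3 : MvPolynomial (Fin 4) K) ∈ idealJ (idealI K) expo :=
    Ideal.mem_sup_right (Ideal.subset_span ⟨0, rfl⟩)
  have hP2 : (X 2 ^ 3 : MvPolynomial (Fin 4) K) ∈ idealJ (idealI K) expo :=
    Ideal.mem_sup_right (Ideal.subset_span ⟨2, rfl⟩)
  have hLg : linForm l * g ∈ idealJ (idealI K) expo := by
    have heq : linForm l * g = (C (l 0 ^ 3 * l 2) * X 2) * X 0 ^ 3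
        - (C (l 0 * l 2 ^ 3) * X 0) * X 2 ^ 3
        + (C (l 1) * (C (l 0 ^ 2 * l 2) * X 0 * X 2 - C (l 0 * l 2 ^ 2) * X 2 ^ 2)) * (X 0 * X 1)
        + (C (l 3) * (C (l 0 ^ 2 * l 2) * X 0 ^ 2 - C (l 0 * l 2 ^ 2) * X 0 * X 2)) * (X 2 * X 3)
        := by
      rw [hg', linForm, Fin.sum_univ_four]
      simp only [map_mul, map_pow]
      ring
    rw [heq]
    exact Ideal.add_mem _ (Ideal.add_mem _ (Ideal.sub_mem _ (Ideal.mul_mem_left _ _ hP0)
      (Ideal.mul_mem_left _ _ hP2)) (Ideal.mul_mem_left _ _ hI1)) (Ideal.mul_mem_left _ _ hI2)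
  have hgJ := hi g hghom hLg
  have hJ : ∀ f ∈ idealJ (idealI K) expo,
      coeff (Finsupp.single 0 2 + Finsupp.single 2 1) f = 0 := by
    apply J_induction
    · intro f g hf hg
      rw [coeff_add, hf, hg, add_zero]
    · exact coeff_zero _
    · intro m c
      rw [mono_XX, coeff_monomial, if_neg]
      intro h
      have := DFunLike.congr_fun h 1
      simp at this
    · intro m c
      rw [mono_XX, coeff_monomial, if_neg]
      intro h
      have := DFunLike.congr_fun h 3
      simp at this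
    · intro m c i
      rw [mono_pow, coeff_monomial, if_neg]
      intro h
      fin_cases i
      · have := DFunLike.congr_fun h 0
        simp [expo] at this
      · have := DFunLike.congr_fun h 1
        simp [expo] at this
      · have := DFunLike.congr_fun h 2
        simp [expo] at this
      · have := DFunLike.congr_fun h 3
        simp [expo] at this
  have h2 := hJ g hgJ
  rw [hg, coeff_add, coeff_monomial, if_pos rfl, coeff_monomial, if_neg, add_zero] at h2
  · exact mul_ne_zero (pow_ne_zero 2 (hl 0)) (hl 2) h2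
  · intro h
    have := DFunLike.congr_fun h 0
    simp at this

/-! ### The kernel -/

/-- The exponent vector `(i, j, k, r)`. -/
noncomputable def e4 (i j k r : ℕ) : Fin 4 →₀ ℕ :=
  Finsupp.single 0 i + Finsupp.single 1 j + Finsupp.single 2 k + Finsupp.single 3 r

theorem eq_e4 (m : Fin 4 →₀ ℕ) : m = e4 (m 0) (m 1) (m 2) (m 3) := by
  ext i
  fin_cases i <;> simp [e4]

theorem e4_add0 (i j k r : ℕ) : e4 i j k r + Finsupp.single 0 1 = e4 (i + 1) j k r := by
  ext t
  fin_cases t <;> simp [e4]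

theorem e4_add1 (i j k r : ℕ) : e4 i j k r + Finsupp.single 1 1 = e4 i (j + 1) k r := by
  ext t
  fin_cases t <;> simp [e4]

theorem e4_add2 (i j k r : ℕ) : e4 i j k r + Finsupp.single 2 1 = e4 i j (k + 1) r := by
  ext t
  fin_cases t <;> simp [e4]

theorem e4_add3 (i j k r : ℕ) : e4 i j k r + Finsupp.single 3 1 = e4 i j k (r + 1) := by
  ext t
  fin_cases t <;> simp [e4]

theorem coeff_p0 (F : MvPolynomial (Fin 4) K) (i j k r : ℕ) :
    coeff (e4 i j k r) (pderiv 0 F) = coeff (e4 (i + 1) j k r) F * (i + 1) := by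
  rw [coeff_pderiv, e4_add0]
  simp [e4]

theorem coeff_p1 (F : MvPolynomial (Fin 4) K) (i j k r : ℕ) :
    coeff (e4 i j k r) (pderiv 1 F) = coeff (e4 i (j + 1) k r) F * (j + 1) := by
  rw [coeff_pderiv, e4_add1]
  simp [e4]

theorem coeff_p2 (F : MvPolynomial (Fin 4) K) (i j k r : ℕ) :
    coeff (e4 i j k r) (pderiv 2 F) = coeff (e4 i j (k + 1) r) F * (k + 1) := by
  rw [coeff_pderiv, e4_add2]
  simp [e4]

theorem coeff_p3 (F : MvPolynomial (Fin 4) K) (i j k r : ℕ) :
    coeff (e4 i j k r) (pderiv 3 F) = coeff (e4 i j k (r + 1)) F * (r + 1) := by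
  rw [coeff_pderiv, e4_add3]
  simp [e4]

theorem act_linForm (l : Fin 4 → K) (F : MvPolynomial (Fin 4) K) :
    act (linForm l) F = l 0 • pderiv 0 F + l 1 • pderiv 1 F + l 2 • pderiv 2 F
      + l 3 • pderiv 3 F := by
  rw [linForm, Fin.sum_univ_four, act_add, act_add, act_add, act_CX, act_CX, act_CX, act_CX]

/-- Every `F ∈ 𝒦` is free of `y₀` and `y₂`. -/
theorem ker_pderiv [CharZero K] {l : Fin 4 → K} (hl : ∀ i, l i ≠ 0)
    {F : MvPolynomial (Fin 4) K} (hF : F ∈ kerK (idealJ (idealI K) expo) (linForm l) 4) :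
    pderiv 0 F = 0 ∧ pderiv 2 F = 0 := by
  obtain ⟨hhom, hJ, hL⟩ := hF
  have hI1 : (X 0 * X 1 : MvPolynomial (Fin 4) K) ∈ idealJ (idealI K) expo :=
    Ideal.mem_sup_left (Ideal.subset_span (by simp))
  have hI2 : (X 2 * X 3 : MvPolynomial (Fin 4) K) ∈ idealJ (idealI K) expo :=
    Ideal.mem_sup_left (Ideal.subset_span (by simp))
  have hP0 : (X 0 ^ 3 : MvPolynomial (Fin 4) K) ∈ idealJ (idealI K) expo :=
    Ideal.mem_sup_right (Ideal.subset_span ⟨0, rfl⟩)
  have hP2 : (X 2 ^ 3 : MvPolynomial (Fin 4) K) ∈ idealJ (idealI K) expo :=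
    Ideal.mem_sup_right (Ideal.subset_span ⟨2, rfl⟩)
  have hcast : ∀ n : ℕ, ((n : K) + 1) ≠ 0 := fun n => by exact_mod_cast Nat.succ_ne_zero n
  have hA : ∀ i j k r, coeff (e4 (i + 1) (j + 1) k r) F = 0 := by
    intro i j k r
    have h := hJ _ hI1
    rw [act_XX 0 1 (by decide)] at h
    have h2 := congrArg (coeff (e4 i j k r)) h
    rw [coeff_p0, coeff_p1, coeff_zero] at h2
    rcases mul_eq_zero.mp h2 with h3 | h3
    · rcases mul_eq_zero.mp h3 with h4 | h4
      · exact h4
      · exact absurd h4 (hcast _)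
    · exact absurd h3 (hcast _)
  have hB : ∀ i j k r, coeff (e4 i j (k + 1) (r + 1)) F = 0 := by
    intro i j k r
    have h := hJ _ hI2
    rw [act_XX 2 3 (by decide)] at h
    have h2 := congrArg (coeff (e4 i j k r)) h
    rw [coeff_p2, coeff_p3, coeff_zero] at h2
    rcases mul_eq_zero.mp h2 with h3 | h3
    · rcases mul_eq_zero.mp h3 with h4 | h4
      · exact h4
      · exact absurd h4 (hcast _)
    · exact absurd h3 (hcast _)
  have hC0 : ∀ i j k r, coeff (e4 (i + 3) j k r) F = 0 := by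
    intro i j k r
    have h := hJ _ hP0
    rw [act_cube] at h
    have h2 := congrArg (coeff (e4 i j k r)) h
    rw [coeff_p0, coeff_p0, coeff_p0, coeff_zero] at h2
    have h5 : ((i : K) + 1) * (((i + 1 : ℕ) : K) + 1) * (((i + 1 + 1 : ℕ) : K) + 1) ≠ 0 :=
      mul_ne_zero (mul_ne_zero (hcast _) (hcast _)) (hcast _)
    have h6 : coeff (e4 (i + 1 + 1 + 1) j k r) F *
        (((i : K) + 1) * (((i + 1 : ℕ) : K) + 1) * (((i + 1 + 1 : ℕ) : K) + 1)) = 0 := by
      rw [← h2]
      ring
    exact (mul_eq_zero.mp h6).resolve_right h5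
  have hC2 : ∀ i j k r, coeff (e4 i j (k + 3) r) F = 0 := by
    intro i j k r
    have h := hJ _ hP2
    rw [act_cube] at h
    have h2 := congrArg (coeff (e4 i j k r)) h
    rw [coeff_p2, coeff_p2, coeff_p2, coeff_zero] at h2
    have h5 : ((k : K) + 1) * (((k + 1 : ℕ) : K) + 1) * (((k + 1 + 1 : ℕ) : K) + 1) ≠ 0 :=
      mul_ne_zero (mul_ne_zero (hcast _) (hcast _)) (hcast _)
    have h6 : coeff (e4 i j (k + 1 + 1 + 1) r) F *
        (((k : K) + 1) * (((k + 1 : ℕ) : K) + 1) * (((k + 1 + 1 : ℕ) : K) + 1)) = 0 := by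
      rw [← h2]
      ring
    exact (mul_eq_zero.mp h6).resolve_right h5
  have hH : ∀ i j k r, i + j + k + r ≠ 4 → coeff (e4 i j k r) F = 0 := by
    intro i j k r h
    apply hhom.coeff_eq_zero
    rw [degree_four]
    simpa [e4] using h
  have hD : ∀ i j k r : ℕ, l 0 * (coeff (e4 (i + 1) j k r) F * (i + 1)) +
      l 1 * (coeff (e4 i (j + 1) k r) F * (j + 1)) +
      l 2 * (coeff (e4 i j (k + 1) r) F * (k + 1)) +
      l 3 * (coeff (e4 i j k (r + 1)) F * (r + 1)) = 0 := by
    intro i j k r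
    have h2 := congrArg (coeff (e4 i j k r)) hL
    rw [act_linForm] at h2
    simp only [coeff_add, coeff_smul, smul_eq_mul, coeff_zero] at h2
    rw [coeff_p0, coeff_p1, coeff_p2, coeff_p3] at h2
    exact h2
  -- the remaining coefficients
  have h2020 : coeff (e4 2 0 2 0) F = 0 := by
    have h := hD 1 0 2 0
    have e1 := hA 0 0 2 0
    have e2 := hC2 1 0 0 0
    have e3 := hB 1 0 1 0
    norm_num at h e1 e2 e3
    rw [e1, e2, e3] at h
    simpa [hl 0] using h
  have h2002 : coeff (e4 2 0 0 2) F = 0 := by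
    have h := hD 2 0 0 1
    have e1 := hC0 0 0 0 1
    have e2 := hA 1 0 0 1
    have e3 := hB 2 0 0 0
    norm_num at h e1 e2 e3
    rw [e1, e2, e3] at h
    simpa [hl 3] using h
  have h1003 : coeff (e4 1 0 0 3) F = 0 := by
    have h := hD 1 0 0 2
    have e2 := hA 0 0 0 2
    have e3 := hB 1 0 0 1
    norm_num at h e2 e3
    rw [h2002, e2, e3] at h
    simpa [hl 3] using h
  have h0220 : coeff (e4 0 2 2 0) F = 0 := by
    have h := hD 0 1 2 0
    have e1 := hA 0 0 2 0
    have e2 := hC2 0 1 0 0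
    have e3 := hB 0 1 1 0
    norm_num at h e1 e2 e3
    rw [e1, e2, e3] at h
    simpa [hl 1] using h
  have h0310 : coeff (e4 0 3 1 0) F = 0 := by
    have h := hD 0 2 1 0
    have e1 := hA 0 1 1 0
    have e3 := hB 0 2 0 0
    norm_num at h e1 e3
    rw [e1, h0220, e3] at h
    simpa [hl 1] using h
  constructor
  · ext m
    rw [eq_e4 m, coeff_p0, coeff_zero]
    generalize m 0 = i
    generalize m 1 = j
    generalize m 2 = k
    generalize m 3 = r
    suffices h : coeff (e4 (i + 1) j k r) F = 0 by rw [h, zero_mul]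
    by_cases hs : i + 1 + j + k + r = 4
    swap
    · exact hH _ _ _ _ hs
    rcases j with _ | j
    swap
    · exact hA i j k r
    rcases i with _ | _ | i
    · rcases k with _ | k
      · obtain rfl : r = 3 := by omega
        exact h1003
      · rcases r with _ | r
        · obtain rfl : k = 2 := by omega
          exact hC2 1 0 0 0
        · exact hB _ _ _ _
    · rcases k with _ | k
      · obtain rfl : r = 2 := by omega
        exact h2002
      · rcases r with _ | r
        · obtain rfl : k = 1 := by omega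
          exact h2020
        · exact hB _ _ _ _
    · exact hC0 i 0 k r
  · ext m
    rw [eq_e4 m, coeff_p2, coeff_zero]
    generalize m 0 = i
    generalize m 1 = j
    generalize m 2 = k
    generalize m 3 = r
    suffices h : coeff (e4 i j (k + 1) r) F = 0 by rw [h, zero_mul]
    by_cases hs : i + j + (k + 1) + r = 4
    swap
    · exact hH _ _ _ _ hs
    rcases r with _ | r
    swap
    · exact hB _ _ _ _
    rcases k with _ | _ | k
    · rcases i with _ | i
      · obtain rfl : j = 3 := by omega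
        exact h0310
      · rcases j with _ | j
        · obtain rfl : i = 2 := by omega
          exact hC0 0 0 1 0
        · exact hA _ _ _ _
    · rcases i with _ | i
      · obtain rfl : j = 2 := by omega
        exact h0220
      · rcases j with _ | j
        · obtain rfl : i = 1 := by omega
          exact h2020
        · exact hA _ _ _ _
    · exact hC2 i j k 0

/-! ### Linear forms in `I + (θ₁, θ₂)` -/

/-- Three independent linear forms do not lie in `I + (θ₁, θ₂)`. -/
theorem no_three {θ₁ θ₂ : MvPolynomial (Fin 4) K} (h1 : constantCoeff θ₁ = 0)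
    (h2 : constantCoeff θ₂ = 0) {l : Fin 4 → K} (hl : l 1 ≠ 0)
    (hX0 : (X 0 : MvPolynomial (Fin 4) K) ∈ idealI K ⊔ Ideal.span {θ₁, θ₂})
    (hX2 : (X 2 : MvPolynomial (Fin 4) K) ∈ idealI K ⊔ Ideal.span {θ₁, θ₂})
    (hM : (C (l 1) * X 1 + C (l 3) * X 3 : MvPolynomial (Fin 4) K) ∈
      idealI K ⊔ Ideal.span {θ₁, θ₂}) : False := by
  have key : ∀ f ∈ idealI K ⊔ Ideal.span {θ₁, θ₂}, ∃ α β : K, ∀ i,
      constantCoeff (pderiv i f) = α * constantCoeff (pderiv i θ₁)
        + β * constantCoeff (pderiv i θ₂) := by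
    intro f hf
    obtain ⟨u, hu, v, hv, rfl⟩ := Submodule.mem_sup.mp hf
    obtain ⟨a, b, rfl⟩ := Ideal.mem_span_pair.mp hu
    obtain ⟨c, d, rfl⟩ := Ideal.mem_span_pair.mp hv
    refine ⟨constantCoeff c, constantCoeff d, fun i => ?_⟩
    simp only [map_add, Derivation.leibniz, smul_eq_mul, map_mul, h1, h2, constantCoeff_X]
    ring
  obtain ⟨a1, b1, e1⟩ := key _ hX0
  obtain ⟨a2, b2, e2⟩ := key _ hX2
  obtain ⟨a3, b3, e3⟩ := key _ hM
  have e10 := e1 0
  have e12 := e1 2
  have e11 := e1 1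
  have e20 := e2 0
  have e22 := e2 2
  have e21 := e2 1
  have e30 := e3 0
  have e32 := e3 2
  have e31 := e3 1
  simp only [map_add, Derivation.leibniz, smul_eq_mul, map_mul, pderiv_C, pderiv_X,
    constantCoeff_C, mul_zero, add_zero, Pi.single_apply] at e10 e12 e11 e20 e22 e21 e30 e32 e31
  norm_num at e10 e12 e11 e20 e22 e21 e30 e32 e31
  generalize constantCoeff (pderiv 0 θ₁) = p0 at *
  generalize constantCoeff (pderiv 1 θ₁) = p1 at *
  generalize constantCoeff (pderiv 2 θ₁) = p2 at *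
  generalize constantCoeff (pderiv 0 θ₂) = q0 at *
  generalize constantCoeff (pderiv 1 θ₂) = q1 at *
  generalize constantCoeff (pderiv 2 θ₂) = q2 at *
  rw [if_neg (by decide : ¬ (2 : Fin 4) = 0)] at e20
  rw [if_neg (by decide : ¬ (3 : Fin 4) = 0)] at e30
  rw [if_neg (by decide : ¬ (2 : Fin 4) = 1)] at e21
  rw [if_neg (by decide : ¬ (3 : Fin 4) = 1), add_zero] at e31
  rw [if_neg (by decide : ¬ (0 : Fin 4) = 2)] at e12
  rw [if_neg (by decide : ¬ (1 : Fin 4) = 2), if_neg (by decide : ¬ (3 : Fin 4) = 2),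
    add_zero] at e32
  have hdet : (a1 * p0 + b1 * q0) * ((a2 * p2 + b2 * q2) * (a3 * p1 + b3 * q1)
        - (a2 * p1 + b2 * q1) * (a3 * p2 + b3 * q2))
      - (a1 * p2 + b1 * q2) * ((a2 * p0 + b2 * q0) * (a3 * p1 + b3 * q1)
        - (a2 * p1 + b2 * q1) * (a3 * p0 + b3 * q0))
      + (a1 * p1 + b1 * q1) * ((a2 * p0 + b2 * q0) * (a3 * p2 + b3 * q2)
        - (a2 * p2 + b2 * q2) * (a3 * p0 + b3 * q0)) = 0 := by
    ring
  rw [← e10, ← e12, ← e11, ← e20, ← e22, ← e21, ← e30, ← e32, ← e31] at hdet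
  apply hl
  linear_combination hdet

/-- Q1 is false.  Over every field `K` of characteristic zero, for `n = 4`,
`I = (x₀x₁, x₂x₃)`, exponents `(3, 5, 3, 5)`, `t = 4` and every linear form
`L = ∑ lᵢ xᵢ` with all `lᵢ ≠ 0`:
* `×L : A₃ → A₄` is neither injective nor surjective;
* for no `F ∈ 𝒦` and no homogeneous `θ₁, θ₂` of positive degree is
  `Ann_R(F) = I + (θ₁, θ₂)`. -/
theorem result (K : Type) [Field K] [CharZero K] (l : Fin 4 → K) (hl : ∀ i, l i ≠ 0) :
    ¬ MulInjective (idealJ (idealI K) expo) (linForm l) 4 ∧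
    ¬ MulSurjective (idealJ (idealI K) expo) (linForm l) 4 ∧
    ∀ F ∈ kerK (idealJ (idealI K) expo) (linForm l) 4,
      ∀ (d₁ d₂ : ℕ) (θ₁ θ₂ : MvPolynomial (Fin 4) K), 0 < d₁ → 0 < d₂ →
        θ₁.IsHomogeneous d₁ → θ₂.IsHomogeneous d₂ →
        ¬ ∀ g : MvPolynomial (Fin 4) K, act g F = 0 ↔ g ∈ idealI K ⊔ Ideal.span {θ₁, θ₂} := by
  refine ⟨not_injective hl, not_surjective hl, ?_⟩
  intro F hF d₁ d₂ θ₁ θ₂ hd₁ hd₂ hθ₁ hθ₂ hAnn
  obtain ⟨h0, h2⟩ := ker_pderiv hl hF
  have hc : ∀ {d : ℕ} {θ : MvPolynomial (Fin 4) K}, 0 < d → θ.IsHomogeneous d →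
      constantCoeff θ = 0 := by
    intro d θ hd hθ
    rw [constantCoeff_eq]
    apply hθ.coeff_eq_zero
    rw [degree_four]
    simp
    omega
  apply no_three (hc hd₁ hθ₁) (hc hd₂ hθ₂) (hl 1) (l := l)
  · rw [← hAnn, act_X, h0]
  · rw [← hAnn, act_X, h2]
  · rw [← hAnn, act_add, act_CX, act_CX]
    have hL := hF.2.2
    rw [act_linForm, h0, h2, smul_zero, smul_zero, zero_add, add_zero] at hL
    exact hL

end Pool.Agent.Results.MP_2332b0_al.NoSopDualGenerator
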